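import Pool.Agent.Helper76.ND.StC

/-! # ND module Bk: structure of a halving sequence near an integer -/

set_option autoImplicit false

noncomputable section

namespace Pool.Agent.Helper93.ND

open Pool.Agent.Helper76.ND Finset

theorem back (X : ℕ → ℝ) (h : ∀ j, ∃ m : ℤ, 2 * X (j + 1) = X j + m) (a k : ℕ) :
    ∃ m' : ℤ, X a = 2 ^ k * X (a + k) + m' := by
  induction k with
  | zero => exact ⟨0, by simp⟩
  | succ k ih =>
    obtain ⟨m', hm'⟩ := ih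
    obtain ⟨l, hl⟩ := h (a + k)
    refine ⟨m' - 2 ^ k * l, ?_⟩
    rw [hm']
    have h2 : X (a + k) = 2 * X (a + (k + 1)) - l := by
      have : a + (k + 1) = a + k + 1 := by ring
      rw [this, hl]; ring
    rw [h2]
    push_cast
    ring

theorem hBk : StBk := by
  intro n I ε X m hn hε hε2 hX hm
  obtain ⟨⟨c0, m0, hc0, hX3⟩, -⟩ := hX 3
  have h3 : (3 : ℝ) ^ n ≠ 0 := by positivity
  have h3p : (0 : ℝ) < 3 ^ n := by positivity
  set c : ℤ := c0 + (m0 - m) * 3 ^ n with hcdef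
  have hX3c : X 3 = c / 3 ^ n + m := by
    rw [hX3, hcdef]
    push_cast
    field_simp
    ring
  have hc3 : ¬ (3 ∣ c) := by
    intro hd
    apply hc0
    have : (3 : ℤ) ∣ (m0 - m) * 3 ^ n := Dvd.dvd.mul_left (dvd_pow_self 3 (by omega)) _
    have h4 : c0 = c - (m0 - m) * 3 ^ n := by rw [hcdef]; ring
    rw [h4]
    exact dvd_sub hd this
  have hcne : c ≠ 0 := by
    intro h0
    apply hc3
    rw [h0]
    exact dvd_zero 3
  obtain ⟨Tt, d, hd, hcd⟩ := Nat.exists_eq_two_pow_mul_odd (n := c.natAbs) (by simpa using hcne)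
  have habs : |(c : ℝ)| = (2 : ℝ) ^ Tt * d := by
    have h5 : ((c.natAbs : ℤ) : ℝ) = |(c : ℝ)| := by
      rw [Int.natCast_natAbs]
      push_cast
      rfl
    rw [← h5, hcd]
    push_cast
    rfl
  have hd1 : (1 : ℝ) ≤ d := by
    have : 1 ≤ d := hd.pos
    exact_mod_cast this
  have hle : (2 : ℝ) ^ Tt ≤ |(c : ℝ)| := by
    rw [habs]
    have : (0 : ℝ) < 2 ^ Tt := by positivity
    nlinarith
  have hce : |(c : ℝ)| ≤ ε * 3 ^ n := by
    have h6 : X 3 - m = c / 3 ^ n := by rw [hX3c]; ring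
    rw [h6, abs_div, abs_of_pos h3p, div_le_iff₀ h3p] at hm
    exact hm
  have hstep : ∀ j, ∃ m : ℤ, 2 * X (j + 1) = X j + m := fun j => (hX j).2
  -- forward relation
  have hfw : ∀ i : ℕ, ∃ mi : ℤ, 2 ^ i * X (3 + i) = c / 3 ^ n + mi := by
    intro i
    obtain ⟨m', hm'⟩ := back X hstep 3 i
    refine ⟨m - m', ?_⟩
    push_cast
    linarith
  obtain ⟨ms, hms⟩ := hfw (Tt + 1 + I)
  obtain ⟨⟨c1, m1, hc1, hX1⟩, -⟩ := hX (3 + (Tt + 1 + I))
  have hint : (2 : ℤ) ^ (Tt + 1 + I) * (c1 + 3 ^ n * m1) = c + 3 ^ n * ms := by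
    have h7 : (2 : ℝ) ^ (Tt + 1 + I) * (c1 + 3 ^ n * m1) = c + 3 ^ n * ms := by
      rw [hX1] at hms
      have h8 : (3 : ℝ) ^ n * (2 ^ (Tt + 1 + I) * (c1 / 3 ^ n + m1))
          = 3 ^ n * (c / 3 ^ n + ms) := by rw [hms]
      have h9 : (3 : ℝ) ^ n * (2 ^ (Tt + 1 + I) * (c1 / 3 ^ n + m1))
          = 2 ^ (Tt + 1 + I) * (c1 + 3 ^ n * m1) := by
        field_simp
      have h10 : (3 : ℝ) ^ n * (c / 3 ^ n + ms) = c + 3 ^ n * ms := by
        field_simp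
      rw [← h9, h8, h10]
    exact_mod_cast h7
  have hdvdc : (2 : ℤ) ^ Tt ∣ c := by
    rw [← Int.dvd_natAbs, hcd]
    push_cast
    exact Dvd.intro _ rfl
  have hndvdc : ¬ ((2 : ℤ) ^ (Tt + 1) ∣ c) := by
    intro h
    rw [← Int.dvd_natAbs, hcd] at h
    push_cast at h
    rw [pow_succ] at h
    have h11 : (2 : ℤ) ∣ (d : ℤ) := by
      exact Int.dvd_of_mul_dvd_mul_left (by positivity) h
    have h12 : (2 : ℕ) ∣ d := by exact_mod_cast h11
    rw [Nat.odd_iff] at hd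
    omega
  have hdvd : (2 : ℤ) ^ (Tt + 1) ∣ c + 3 ^ n * ms := by
    rw [← hint]
    exact Dvd.dvd.mul_right (pow_dvd_pow 2 (by omega)) _
  have hcop : ∀ k : ℕ, IsCoprime ((2 : ℤ) ^ k) (3 ^ n) := by
    intro k
    apply IsCoprime.pow
    exact Int.isCoprime_iff_gcd_eq_one.mpr (by norm_num)
  have hdvdms : (2 : ℤ) ^ Tt ∣ ms := by
    have h13 : (2 : ℤ) ^ Tt ∣ 3 ^ n * ms := by
      have h14 : (2 : ℤ) ^ Tt ∣ c + 3 ^ n * ms := dvd_trans (pow_dvd_pow 2 (by omega)) hdvd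
      exact (dvd_add_right hdvdc).mp h14
    exact (hcop Tt).dvd_of_dvd_mul_left h13
  obtain ⟨s, hs⟩ := hdvdms
  have hodd : Odd s := by
    rw [← Int.not_even_iff_odd]
    intro hev
    obtain ⟨r, hr⟩ := hev
    apply hndvdc
    have h15 : (2 : ℤ) ^ (Tt + 1) ∣ 3 ^ n * ms := by
      rw [hs, hr]
      exact ⟨3 ^ n * r, by ring⟩
    exact (dvd_add_left h15).mp hdvd
  refine ⟨c, s, Tt, hodd, hce, hle, ?_⟩
  intro p hp
  obtain ⟨k, hk⟩ : ∃ k, p + k = 3 + (Tt + 1 + I) := ⟨3 + (Tt + 1 + I) - p, by omega⟩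
  obtain ⟨m', hm'⟩ := back X hstep p k
  refine ⟨m', ?_⟩
  rw [hm', hk]
  have h2i : (2 : ℝ) ^ (Tt + 1 + I) ≠ 0 := by positivity
  have hXe : X (3 + (Tt + 1 + I)) = (c / 3 ^ n + ms) / 2 ^ (Tt + 1 + I) := by
    rw [eq_div_iff h2i, ← hms]
    ring
  rw [hXe, hs]
  have hk2 : (2 : ℝ) ^ k = 2 ^ (3 - (p : ℤ)) * 2 ^ (Tt + 1 + I) := by
    rw [← zpow_natCast (2 : ℝ) k, ← zpow_natCast (2 : ℝ) (Tt + 1 + I), ← zpow_add₀ (by norm_num)]
    congr 1
    push_cast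
    have : ((p + k : ℕ) : ℤ) = ((3 + (Tt + 1 + I) : ℕ) : ℤ) := by rw [hk]
    push_cast at this
    linarith
  have hTt : (2 : ℝ) ^ ((Tt : ℤ) + 3 - p) = 2 ^ (3 - (p : ℤ)) * 2 ^ Tt := by
    rw [← zpow_natCast (2 : ℝ) Tt, ← zpow_add₀ (by norm_num)]
    congr 1
    ring
  rw [hk2, hTt]
  push_cast
  field_simp
  ring

end Pool.Agent.Helper93.ND
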